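import Pool.Agent.helper83.LS.Spec2

set_option autoImplicit false

/-! ls:RL3 -/

namespace LSH

theorem RL3_size (t : BT) : 0 < t.size := by
  cases t with
  | leaf => exact Nat.one_pos
  | un t => exact Nat.succ_pos _
  | br s t => exact Nat.succ_pos _

theorem RL3_key (ha : RL3a_stmt) (hb : RL3b_stmt) (s t : BT) (hs : LL s) (ht : WW t)
    (S : Finset Pt) (hc : S.card = s.size + t.size + 1) (hg : Gen (S : Set Pt)) :
    ∃ d, Draw (.br s t) S d ∧ ∀ x ∈ S, d.root.1 ≤ x.1 := by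
  classical
  have hne : S.Nonempty := by
    rw [← Finset.card_pos]
    omega
  obtain ⟨w, hw, hwm⟩ := Finset.exists_min_image S (fun x => x.1) hne
  have hne' : (S.erase w).Nonempty := by
    rw [← Finset.card_pos, Finset.card_erase_of_mem hw]
    have := RL3_size s
    omega
  obtain ⟨z, hz, hzm⟩ := Finset.exists_min_image (S.erase w) (fun x => x.1) hne'
  have hz1 : z ≠ w := Finset.ne_of_mem_erase hz
  have hz2 : z ∈ S := Finset.mem_of_mem_erase hz
  have hz3 : ∀ x ∈ S, x ≠ w → z.1 ≤ x.1 := fun x hx hxw => hzm x (Finset.mem_erase.2 ⟨hxw, hx⟩)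
  have h1 := (hg z hz2 w hw hz1).2
  rcases lt_or_gt_of_ne h1 with h2 | h2
  · obtain ⟨d, hd, hr⟩ := ha s t hs ht S w z hc hg hw hwm hz2 hz1 hz3 h2
    exact ⟨d, hd, fun x hx => by rw [hr]; exact hwm x hx⟩
  · obtain ⟨d, hd, hr⟩ := hb s t hs ht S w z hc hg hw hwm hz2 hz1 hz3 h2
    exact ⟨d, hd, fun x hx => by rw [hr]; exact hwm x hx⟩

theorem RL3 (ha : RL3a_stmt) (hb : RL3b_stmt) (hs : SWP_stmt) : RL3_stmt := by
  intro s t h1 h2
  refine ⟨fun S hc hg => RL3_key ha hb s t h1 h2 S hc hg, fun S hc hg => ?_⟩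
  have hc' : S.card = s.size + t.size + 1 := by
    have : S.card = t.size + s.size + 1 := hc
    omega
  obtain ⟨d, hd, hr⟩ := RL3_key ha hb s t h1 h2 S hc' hg
  obtain ⟨e, he, her⟩ := hs s t S d hd
  exact ⟨e, he, fun x hx => by rw [her]; exact hr x hx⟩

end LSH
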