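import Pool.Agent.helper83.LS.Spec

/-!
# Project ls (MP_60c1a7_co), module SG (helper78)
-/

set_option autoImplicit false

namespace LSH

theorem SG_h (x₁ x₂ y : ℝ) (z : Pt) :
    z ∈ segment ℝ ((x₁, y) : Pt) ((x₂, y) : Pt) ↔ z.2 = y ∧ z.1 ∈ Set.uIcc x₁ x₂ := by
  rw [← Prod.image_mk_segment_left, segment_eq_uIcc]
  constructor
  · rintro ⟨t, ht, rfl⟩
    exact ⟨rfl, ht⟩
  · rintro ⟨h1, h2⟩
    exact ⟨z.1, h2, by rw [← h1]⟩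

theorem SG_v (x y₁ y₂ : ℝ) (z : Pt) :
    z ∈ segment ℝ ((x, y₁) : Pt) ((x, y₂) : Pt) ↔ z.1 = x ∧ z.2 ∈ Set.uIcc y₁ y₂ := by
  rw [← Prod.image_mk_segment_right, segment_eq_uIcc]
  constructor
  · rintro ⟨t, ht, rfl⟩
    exact ⟨rfl, ht⟩
  · rintro ⟨h1, h2⟩
    exact ⟨z.2, h2, by rw [← h1]⟩

theorem SG : SG_stmt := by
  rintro ⟨a1, a2⟩ ⟨b1, b2⟩ z
  constructor
  · rw [Set.mem_union, SG_h, SG_v]
    show (true = true ∧ _) ∨ (true = false ∧ _) ↔ _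
    simp
  · rw [Set.mem_union, SG_h, SG_v]
    show (false = true ∧ _) ∨ (false = false ∧ _) ↔ _
    simp

end LSH
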